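import Pool.Agent.N502.FR.Stm

/-!
# Number of small subsets (project FR of helper502, part CNT, helper255)
-/

set_option autoImplicit false

namespace Pool.Agent.N255.FR

theorem main : Pool.Agent.N502.FR.S_CNT := by
  classical
  intro N L
  have h := Finset.card_le_card_of_surjOn
    (s := (Finset.univ : Finset (Fin L → Fin (N + 1))))
    (t := (Finset.range N).powerset.filter (fun F => F.card ≤ L))
    (fun φ => (Finset.univ.image (fun i => (φ i : ℕ))).erase N) (by
      intro F hF
      rw [Finset.mem_coe, Finset.mem_filter, Finset.mem_powerset] at hF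
      obtain ⟨hF1, hF2⟩ := hF
      have hlt : ∀ x ∈ F, x < N := fun x hx => Finset.mem_range.1 (hF1 hx)
      refine ⟨fun i => if h : i.1 < F.card then
        ⟨F.orderEmbOfFin rfl ⟨i.1, h⟩,
          Nat.lt_succ_of_lt (hlt _ (Finset.orderEmbOfFin_mem F rfl _))⟩
        else ⟨N, Nat.lt_succ_self N⟩, Finset.mem_coe.2 (Finset.mem_univ _), ?_⟩
      ext x
      simp only [Finset.mem_erase, Finset.mem_image, Finset.mem_univ, true_and]
      constructor
      · rintro ⟨hx, i, hi⟩
        split_ifs at hi with h
        · rw [← hi]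
          exact Finset.orderEmbOfFin_mem F rfl _
        · exact absurd hi.symm hx
      · intro hx
        refine ⟨(hlt x hx).ne, ?_⟩
        have h1 : x ∈ Set.range (F.orderEmbOfFin rfl) := by
          rw [Finset.range_orderEmbOfFin]; exact hx
        obtain ⟨i, hi⟩ := h1
        refine ⟨⟨i.1, lt_of_lt_of_le i.2 hF2⟩, ?_⟩
        rw [dif_pos i.2]
        exact hi)
  refine h.trans (le_of_eq ?_)
  rw [Finset.card_univ, Fintype.card_fun, Fintype.card_fin, Fintype.card_fin]

end Pool.Agent.N255.FR
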