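import Mathlib
import Pool.Agent.N604.MW.Stm4

/-!
# KV/WINT: the moment of `WW`
-/

namespace Pool.Agent.N255.KV

open Finset MeasureTheory Pool.Agent.N604.MW

/-- tuples of rows -/
noncomputable def RT (ρ g X : ℕ) : Finset (Fin ρ → Fin g → ℕ) :=
  Fintype.piFinset fun _ => Fintype.piFinset fun _ => Finset.Icc X (2 * X)

/-- some minor is large -/
def Gd (k X ρ g : ℕ) (r : Fin ρ → Fin g → ℕ) : Prop :=
  ∃ c : Fin ρ → Fin g, (X : ℝ) ^ (ρ * (k - 1)) ≤ |(Matrix.of fun i j => ((r i (c j) : ℝ)) ^ k).det|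

/-- the slab -/
def Sl (k g ρ : ℕ) (M0 T : ℝ) (r : Fin ρ → Fin g → ℕ) : Set (Fin g → ℝ) :=
  {B : Fin g → ℝ | (∀ a, |B a| ≤ M0) ∧ ∀ i, |∑ a, B a * (r i a : ℝ) ^ k| ≤ T}

open Classical in
/-- the count -/
noncomputable def RR (k X g ρ : ℕ) (M0 T : ℝ) (B : Fin g → ℝ) : ENNReal :=
  ∑ r ∈ (RT ρ g X).filter (Gd k X ρ g), (Sl k g ρ M0 T r).indicator 1 B

theorem measurableSet_Sl (k g ρ : ℕ) (M0 T : ℝ) (r : Fin ρ → Fin g → ℕ) : MeasurableSet (Sl k g ρ M0 T r) := by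
  have h1 : Sl k g ρ M0 T r = (⋂ a, {B : Fin g → ℝ | |B a| ≤ M0}) ∩
      ⋂ i, {B : Fin g → ℝ | |∑ a, B a * (r i a : ℝ) ^ k| ≤ T} := by
    ext B; simp [Sl]
  rw [h1]
  apply MeasurableSet.inter
  · exact MeasurableSet.iInter fun a => (isClosed_le (by fun_prop) (by fun_prop)).measurableSet
  · exact MeasurableSet.iInter fun a => (isClosed_le (by fun_prop) (by fun_prop)).measurableSet

theorem card_RT (ρ g X : ℕ) : (RT ρ g X).card = (X + 1) ^ (g * ρ) := by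
  unfold RT
  have h : 2 * X + 1 - X = X + 1 := by omega
  simp only [Fintype.card_piFinset, Nat.card_Icc, Finset.prod_const, Finset.card_univ, Fintype.card_fin, h]
  rw [← pow_mul]

theorem int_RR (h3 : S_MEASV) (k X g ρ : ℕ) (M0 T : ℝ) (hM : 0 ≤ M0) (hT : 0 ≤ T) (hX : 1 ≤ X) :
    ∫⁻ B, RR k X g ρ M0 T B ≤
      ENNReal.ofReal (((X : ℝ) + 1) ^ (g * ρ) * ((2 * T) ^ ρ * (2 * M0) ^ (g - ρ) / (X : ℝ) ^ (ρ * (k - 1)))) := by
  classical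
  unfold RR
  rw [lintegral_finsetSum]
  · have hXp : (0 : ℝ) < (X : ℝ) ^ (ρ * (k - 1)) := by positivity
    have hV : (0 : ℝ) ≤ (2 * T) ^ ρ * (2 * M0) ^ (g - ρ) / (X : ℝ) ^ (ρ * (k - 1)) := by positivity
    calc ∑ r ∈ (RT ρ g X).filter (Gd k X ρ g), ∫⁻ B, (Sl k g ρ M0 T r).indicator 1 B
        ≤ ∑ r ∈ (RT ρ g X).filter (Gd k X ρ g),
            ENNReal.ofReal ((2 * T) ^ ρ * (2 * M0) ^ (g - ρ) / (X : ℝ) ^ (ρ * (k - 1))) := by
          apply Finset.sum_le_sum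
          intro r hr
          obtain ⟨c, hc⟩ := (Finset.mem_filter.mp hr).2
          rw [lintegral_indicator_one (measurableSet_Sl k g ρ M0 T r)]
          exact h3 g ρ M0 T _ (fun i a => (r i a : ℝ) ^ k) c hM hT hXp hc
      _ ≤ ∑ r ∈ RT ρ g X,
            ENNReal.ofReal ((2 * T) ^ ρ * (2 * M0) ^ (g - ρ) / (X : ℝ) ^ (ρ * (k - 1))) :=
          Finset.sum_le_sum_of_subset (Finset.filter_subset _ _)
      _ = _ := by
          rw [Finset.sum_const, card_RT, nsmul_eq_mul, ENNReal.ofReal_mul (by positivity)]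
          congr 1
          rw [ENNReal.ofReal_pow (by positivity)]
          push_cast
          congr 1
          rw [ENNReal.ofReal_add (by positivity) (by positivity)]
          simp
  · intro r _
    exact measurable_one.indicator (measurableSet_Sl k g ρ M0 T r)

open Classical in
/-- the finset counted by `WW` -/
noncomputable def ZZ (g k X : ℕ) (T : ℝ) (B : Fin g → ℝ) : Finset (Fin g → ℕ) :=
  (Fintype.piFinset (fun _ : Fin g => Finset.Icc X (2 * X))).filter fun z : Fin g → ℕ =>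
    Function.Injective z ∧ ∀ l ∈ Finset.Icc 1 k, |∑ a, B a * (z a : ℝ) ^ l| ≤ T

theorem WW_eq (g k X : ℕ) (T : ℝ) (B : Fin g → ℝ) : WW g k X T B = ((ZZ g k X T B).card : ℝ) := rfl

theorem mem_ZZ (g k X : ℕ) (T : ℝ) (B : Fin g → ℝ) (z : Fin g → ℕ) (hz : z ∈ ZZ g k X T B) :
    (∀ a, X ≤ z a ∧ z a ≤ 2 * X) ∧ Function.Injective z ∧
      (∀ l ∈ Finset.Icc 1 k, |∑ a, B a * (z a : ℝ) ^ l| ≤ T) := by
  simp only [ZZ, Finset.mem_filter, Fintype.mem_piFinset] at hz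
  exact ⟨fun a => Finset.mem_Icc.mp (hz.1 a), hz.2.1, hz.2.2⟩

theorem card_ZZ (g k X : ℕ) (T : ℝ) (B : Fin g → ℝ) : (ZZ g k X T B).card ≤ (X + 1) ^ g := by
  have h : 2 * X + 1 - X = X + 1 := by omega
  have h2 : (Fintype.piFinset (fun _ : Fin g => Finset.Icc X (2 * X))).card = (X + 1) ^ g := by
    simp [Fintype.card_piFinset, Nat.card_Icc, h]
  rw [← h2]
  apply Finset.card_le_card
  intro z hz
  rw [Fintype.mem_piFinset]
  intro a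
  exact Finset.mem_Icc.mpr ((mem_ZZ g k X T B z hz).1 a)

theorem calc1 (g s ρ : ℕ) (z Y R : ℝ) (hz : 0 ≤ z) (hY : 1 ≤ Y) (hR0 : 0 ≤ R) (hρg : ρ ≤ g) (hρs : ρ ≤ s)
    (h1 : z ≤ 2 ^ (g + 1) * Y ^ ρ) (h2 : (z / 2) ^ ρ ≤ R) :
    z ^ s ≤ ((2 : ℝ) ^ (g + 1)) ^ s * 2 ^ g * Y ^ (ρ * (s - ρ)) * R := by
  have hsr : s = (s - ρ) + ρ := by omega
  have e1 : z ^ s = z ^ (s - ρ) * (2 ^ ρ * (z / 2) ^ ρ) := by
    calc z ^ s = z ^ (s - ρ + ρ) := congrArg _ hsr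
      _ = z ^ (s - ρ) * z ^ ρ := pow_add _ _ _
      _ = z ^ (s - ρ) * (2 ^ ρ * (z / 2) ^ ρ) := by
        rw [← mul_pow]
        congr 2
        ring
  have e2 : z ^ (s - ρ) ≤ (2 ^ (g + 1) * Y ^ ρ) ^ (s - ρ) := pow_le_pow_left₀ hz h1 _
  have e3 : (2 : ℝ) ^ ρ * (z / 2) ^ ρ ≤ 2 ^ g * R := by
    apply mul_le_mul _ h2 (by positivity) (by positivity)
    exact pow_le_pow_right₀ (by norm_num) hρg
  have e4 : ((2 : ℝ) ^ (g + 1) * Y ^ ρ) ^ (s - ρ) ≤ ((2 : ℝ) ^ (g + 1)) ^ s * Y ^ (ρ * (s - ρ)) := by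
    rw [mul_pow, ← pow_mul Y]
    apply mul_le_mul_of_nonneg_right _ (by positivity)
    exact pow_le_pow_right₀ (one_le_pow₀ (by norm_num)) (by omega)
  calc z ^ s = z ^ (s - ρ) * (2 ^ ρ * (z / 2) ^ ρ) := e1
    _ ≤ (((2 : ℝ) ^ (g + 1)) ^ s * Y ^ (ρ * (s - ρ))) * (2 ^ g * R) := by
        apply mul_le_mul (e2.trans e4) e3 (by positivity) (by positivity)
    _ = _ := by ring

/-- pointwise bound -/
theorem point (h2 : S_GREEDY) (g k s X : ℕ) (T M0 : ℝ) (hg : 1 ≤ g) (hk : 2 ≤ k) (hs : 3 * g ≤ s) (hX : 2 ≤ X)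
    (hT : 1 ≤ T) (B : Fin g → ℝ)
    (hB : ∀ z : Fin g → ℕ, (∀ a, X ≤ z a ∧ z a ≤ 2 * X) → Function.Injective z →
      (∀ l ∈ Finset.Icc 1 k, |∑ a, B a * (z a : ℝ) ^ l| ≤ T) → ∀ a, |B a| ≤ M0) :
    ENNReal.ofReal (WW g k X T B ^ s) ≤ ∑ ρ ∈ Finset.Icc 1 g,
      ENNReal.ofReal (((2 : ℝ) ^ (g + 1)) ^ s * 2 ^ g * ((X : ℝ) + 1) ^ (ρ * (s - ρ))) * RR k X g ρ M0 T B := by
  classical
  rw [WW_eq]
  set Z : Finset (Fin g → ℕ) := ZZ g k X T B with hZ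
  have hZm : ∀ z ∈ Z, (∀ a, X ≤ z a ∧ z a ≤ 2 * X) ∧ Function.Injective z ∧
      (∀ l ∈ Finset.Icc 1 k, |∑ a, B a * (z a : ℝ) ^ l| ≤ T) := by
    intro z hz
    exact mem_ZZ g k X T B z hz
  have hZc : Z.card ≤ (X + 1) ^ g := card_ZZ g k X T B
  rcases Finset.eq_empty_or_nonempty Z with hZe | ⟨z0, hz0⟩
  · rw [hZe]
    have : s ≠ 0 := by omega
    simp [this]
  have hcube : ∀ a, |B a| ≤ M0 := by
    obtain ⟨h1, h2', h3'⟩ := hZm z0 hz0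
    exact hB z0 h1 h2' h3'
  -- lower bound for `RR`
  have hlow : ∀ (ρ : ℕ) (R : Finset (Fin ρ → Fin g → ℕ)), (∀ r ∈ R, (∀ i, r i ∈ Z) ∧ Gd k X ρ g r) →
      (R.card : ENNReal) ≤ RR k X g ρ M0 T B := by
    intro ρ R hR
    unfold RR
    calc (R.card : ENNReal) = ∑ r ∈ R, 1 := by simp
      _ = ∑ r ∈ R, (Sl k g ρ M0 T r).indicator 1 B := by
          apply Finset.sum_congr rfl
          intro r hr
          rw [Set.indicator_of_mem]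
          · rfl
          · refine ⟨hcube, fun i => ?_⟩
            exact (hZm _ ((hR r hr).1 i)).2.2 k (Finset.mem_Icc.mpr ⟨by omega, le_rfl⟩)
      _ ≤ _ := by
          apply Finset.sum_le_sum_of_subset
          intro r hr
          rw [Finset.mem_filter]
          refine ⟨?_, (hR r hr).2⟩
          unfold RT
          rw [Fintype.mem_piFinset]
          intro i
          rw [Fintype.mem_piFinset]
          intro a
          exact Finset.mem_Icc.mpr ((hZm _ ((hR r hr).1 i)).1 a)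
  have hX1 : (1 : ℝ) ≤ (X : ℝ) + 1 := by
    have : (0 : ℝ) ≤ X := by positivity
    linarith
  -- it suffices to bound by one term
  have key : ∃ ρ ∈ Finset.Icc 1 g, ∃ R : Finset (Fin ρ → Fin g → ℕ),
      (∀ r ∈ R, (∀ i, r i ∈ Z) ∧ Gd k X ρ g r) ∧
      (Z.card : ℝ) ^ s ≤ ((2 : ℝ) ^ (g + 1)) ^ s * 2 ^ g * ((X : ℝ) + 1) ^ (ρ * (s - ρ)) * R.card := by
    by_cases hsm : Z.card < 2 ^ (g + 1)
    · refine ⟨1, Finset.mem_Icc.mpr ⟨le_rfl, hg⟩, {fun _ => z0}, ?_, ?_⟩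
      · intro r hr
        rw [Finset.mem_singleton] at hr
        subst hr
        refine ⟨fun _ => hz0, fun _ => ⟨0, hg⟩, ?_⟩
        rw [Matrix.det_unique]
        simp only [Matrix.of_apply, one_mul]
        have h1 : (X : ℝ) ≤ (z0 ⟨0, hg⟩ : ℝ) := by exact_mod_cast ((hZm z0 hz0).1 _).1
        have h2' : (1 : ℝ) ≤ X := by exact_mod_cast (by omega : 1 ≤ X)
        rw [abs_of_nonneg (by positivity)]
        calc (X : ℝ) ^ (k - 1) ≤ (X : ℝ) ^ k := pow_le_pow_right₀ h2' (by omega)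
          _ ≤ _ := pow_le_pow_left₀ (by positivity) h1 k
      · rw [Finset.card_singleton, Nat.cast_one, mul_one]
        have h1 : (Z.card : ℝ) ≤ (2 : ℝ) ^ (g + 1) := by exact_mod_cast hsm.le
        calc (Z.card : ℝ) ^ s ≤ ((2 : ℝ) ^ (g + 1)) ^ s * 1 * 1 := by
              rw [mul_one, mul_one]
              exact pow_le_pow_left₀ (by positivity) h1 s
          _ ≤ _ := by
              gcongr
              · exact one_le_pow₀ (by norm_num)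
              · exact one_le_pow₀ hX1
    · push Not at hsm
      -- largest index
      have hex : ∃ ρ, 1 ≤ ρ ∧ ρ ≤ g ∧ 2 ^ (g + 1) * (X + 1) ^ (ρ - 1) ≤ Z.card ∧
          (Z.card : ℝ) ≤ 2 ^ (g + 1) * ((X : ℝ) + 1) ^ ρ := by
        have h0 : ∃ n, ¬ (2 ^ (g + 1) * (X + 1) ^ n ≤ Z.card ∧ n < g) := ⟨g, by simp⟩
        set n := Nat.find h0 with hn
        have hn0 : n ≠ 0 := by
          intro h
          have := Nat.find_spec h0
          rw [← hn, h] at this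
          apply this
          exact ⟨by simpa using hsm, by omega⟩
        have hn1 := Nat.find_min h0 (m := n - 1) (by omega)
        rw [not_not] at hn1
        refine ⟨n, by omega, by omega, hn1.1, ?_⟩
        by_cases hng : n = g
        · calc (Z.card : ℝ) ≤ ((X : ℝ) + 1) ^ g := by exact_mod_cast hZc
            _ = 1 * ((X : ℝ) + 1) ^ n := by rw [hng, one_mul]
            _ ≤ 2 ^ (g + 1) * ((X : ℝ) + 1) ^ n := by
                gcongr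
                exact one_le_pow₀ (by norm_num)
        · have h5 := Nat.find_spec h0
          rw [← hn] at h5
          have h6 : ¬ (2 ^ (g + 1) * (X + 1) ^ n ≤ Z.card) := fun h => h5 ⟨h, by omega⟩
          push Not at h6
          exact_mod_cast h6.le
      obtain ⟨ρ, hρ1, hρg, hρ2, hρ3⟩ := hex
      obtain ⟨R, hR1, hR2⟩ := h2 g k X ρ Z (by omega) hk hρ1 hρg (fun z hz => (hZm z hz).1) hρ2
      refine ⟨ρ, Finset.mem_Icc.mpr ⟨hρ1, hρg⟩, R, hR2, ?_⟩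
      exact calc1 g s ρ (Z.card : ℝ) ((X : ℝ) + 1) R.card (by positivity) hX1 (by positivity) hρg (by omega) hρ3 hR1
  obtain ⟨ρ, hρ, R, hR, hle⟩ := key
  calc ENNReal.ofReal ((Z.card : ℝ) ^ s)
      ≤ ENNReal.ofReal (((2 : ℝ) ^ (g + 1)) ^ s * 2 ^ g * ((X : ℝ) + 1) ^ (ρ * (s - ρ)) * R.card) :=
        ENNReal.ofReal_le_ofReal hle
    _ = ENNReal.ofReal (((2 : ℝ) ^ (g + 1)) ^ s * 2 ^ g * ((X : ℝ) + 1) ^ (ρ * (s - ρ))) * R.card := by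
        rw [ENNReal.ofReal_mul (by positivity), ENNReal.ofReal_natCast]
    _ ≤ ENNReal.ofReal (((2 : ℝ) ^ (g + 1)) ^ s * 2 ^ g * ((X : ℝ) + 1) ^ (ρ * (s - ρ))) * RR k X g ρ M0 T B := by
        gcongr
        exact hlow ρ R hR
    _ ≤ _ := Finset.single_le_sum (f := fun ρ => ENNReal.ofReal (((2 : ℝ) ^ (g + 1)) ^ s * 2 ^ g *
        ((X : ℝ) + 1) ^ (ρ * (s - ρ))) * RR k X g ρ M0 T B) (fun _ _ => zero_le) hρ

theorem measurable_RR (k X g ρ : ℕ) (M0 T : ℝ) : Measurable (RR k X g ρ M0 T) := by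
  unfold RR
  apply Finset.measurable_sum
  intro r _
  exact measurable_one.indicator (measurableSet_Sl k g ρ M0 T r)

/-- the exponent computation -/
theorem expo (g k s ρ X : ℕ) (C1 T : ℝ) (hg : 1 ≤ g) (hk : 2 ≤ k) (hgk : g ≤ k) (hs : 3 * g ≤ s) (hρ1 : 1 ≤ ρ)
    (hρ : ρ ≤ g) (hX : 2 ≤ X) (hT : 1 ≤ T) (hC1 : 0 < C1) :
    ((2 : ℝ) ^ (g + 1)) ^ s * 2 ^ g * ((X : ℝ) + 1) ^ (ρ * (s - ρ)) *
      (((X : ℝ) + 1) ^ (g * ρ) * ((2 * T) ^ ρ * (2 * (C1 * T * (X : ℝ) ^ (2 * (g : ℝ) - 2 - k))) ^ (g - ρ) /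
        (X : ℝ) ^ (ρ * (k - 1)))) ≤
    ((2 : ℝ) ^ (g + 1)) ^ s * 2 ^ g * 2 ^ (g * s + g * g) * 2 ^ g * (1 + C1) ^ g *
      (T ^ g * (X : ℝ) ^ ((g : ℝ) * ((s : ℝ) - k + 1))) := by
  have hX0 : (0 : ℝ) < X := by exact_mod_cast (by omega : 0 < X)
  have hX1 : (1 : ℝ) ≤ X := by exact_mod_cast (by omega : 1 ≤ X)
  have hX2 : (X : ℝ) + 1 ≤ 2 * X := by linarith
  have hT0 : 0 < T := by linarith
  have e1 : ((X : ℝ) + 1) ^ (ρ * (s - ρ)) * ((X : ℝ) + 1) ^ (g * ρ) ≤ 2 ^ (g * s + g * g) *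
      (X : ℝ) ^ ((ρ : ℝ) * (s - ρ) + g * ρ) := by
    rw [← pow_add]
    calc ((X : ℝ) + 1) ^ (ρ * (s - ρ) + g * ρ) ≤ (2 * X) ^ (ρ * (s - ρ) + g * ρ) := by
          gcongr
      _ = 2 ^ (ρ * (s - ρ) + g * ρ) * (X : ℝ) ^ (ρ * (s - ρ) + g * ρ) := mul_pow _ _ _
      _ = 2 ^ (ρ * (s - ρ) + g * ρ) * (X : ℝ) ^ ((ρ : ℝ) * (s - ρ) + g * ρ) := by
          congr 1
          rw [← Real.rpow_natCast]
          congr 1
          rw [Nat.cast_add, Nat.cast_mul, Nat.cast_mul, Nat.cast_sub (by omega)]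
      _ ≤ _ := by
          gcongr
          · norm_num
          · omega
  have e2 : (2 * T) ^ ρ * (2 * (C1 * T * (X : ℝ) ^ (2 * (g : ℝ) - 2 - k))) ^ (g - ρ) =
      2 ^ g * C1 ^ (g - ρ) * T ^ g * (X : ℝ) ^ ((2 * (g : ℝ) - 2 - k) * (g - ρ)) := by
    have hgρ : ((g - ρ : ℕ) : ℝ) = (g : ℝ) - ρ := Nat.cast_sub hρ
    rw [Real.rpow_mul hX0.le, ← hgρ, Real.rpow_natCast]
    have h5 : g = ρ + (g - ρ) := by omega
    have h6 : (2 : ℝ) ^ g = 2 ^ ρ * 2 ^ (g - ρ) := by rw [← pow_add, ← h5]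
    have h7 : T ^ g = T ^ ρ * T ^ (g - ρ) := by rw [← pow_add, ← h5]
    rw [h6, h7]
    ring
  have e3 : C1 ^ (g - ρ) ≤ (1 + C1) ^ g := by
    calc C1 ^ (g - ρ) ≤ (1 + C1) ^ (g - ρ) := by gcongr; linarith
      _ ≤ (1 + C1) ^ g := pow_le_pow_right₀ (by linarith) (by omega)
  have e4 : (X : ℝ) ^ (ρ * (k - 1)) = (X : ℝ) ^ ((ρ : ℝ) * (k - 1)) := by
    rw [← Real.rpow_natCast]
    congr 1
    rw [Nat.cast_mul, Nat.cast_sub (by omega), Nat.cast_one]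
  have e5 : (X : ℝ) ^ ((ρ : ℝ) * (s - ρ) + g * ρ) * (X : ℝ) ^ ((2 * (g : ℝ) - 2 - k) * (g - ρ)) /
      (X : ℝ) ^ ((ρ : ℝ) * (k - 1)) ≤ (X : ℝ) ^ ((g : ℝ) * ((s : ℝ) - k + 1)) := by
    rw [← Real.rpow_add hX0, ← Real.rpow_sub hX0]
    apply Real.rpow_le_rpow_of_exponent_le hX1
    have h8 : (0 : ℝ) ≤ ((g : ℝ) - ρ) * ((s : ℝ) + 3 - ρ - 2 * g) := by
      have h9 : (ρ : ℝ) ≤ g := by exact_mod_cast hρ
      have h10 : 3 * (g : ℝ) ≤ s := by exact_mod_cast hs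
      apply mul_nonneg <;> linarith
    nlinarith [h8]
  calc ((2 : ℝ) ^ (g + 1)) ^ s * 2 ^ g * ((X : ℝ) + 1) ^ (ρ * (s - ρ)) *
      (((X : ℝ) + 1) ^ (g * ρ) * ((2 * T) ^ ρ * (2 * (C1 * T * (X : ℝ) ^ (2 * (g : ℝ) - 2 - k))) ^ (g - ρ) /
        (X : ℝ) ^ (ρ * (k - 1))))
      = ((2 : ℝ) ^ (g + 1)) ^ s * 2 ^ g * (((X : ℝ) + 1) ^ (ρ * (s - ρ)) * ((X : ℝ) + 1) ^ (g * ρ)) *
        (2 ^ g * C1 ^ (g - ρ) * T ^ g * (X : ℝ) ^ ((2 * (g : ℝ) - 2 - k) * (g - ρ)) /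
          (X : ℝ) ^ ((ρ : ℝ) * (k - 1))) := by
        rw [e2, e4]; ring
    _ ≤ ((2 : ℝ) ^ (g + 1)) ^ s * 2 ^ g * (2 ^ (g * s + g * g) *
      (X : ℝ) ^ ((ρ : ℝ) * (s - ρ) + g * ρ)) * (2 ^ g * (1 + C1) ^ g * T ^ g *
        (X : ℝ) ^ ((2 * (g : ℝ) - 2 - k) * (g - ρ)) / (X : ℝ) ^ ((ρ : ℝ) * (k - 1))) := by
        gcongr
    _ = ((2 : ℝ) ^ (g + 1)) ^ s * 2 ^ g * 2 ^ (g * s + g * g) * 2 ^ g * (1 + C1) ^ g *
      (T ^ g * ((X : ℝ) ^ ((ρ : ℝ) * (s - ρ) + g * ρ) * (X : ℝ) ^ ((2 * (g : ℝ) - 2 - k) * (g - ρ)) /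
      (X : ℝ) ^ ((ρ : ℝ) * (k - 1)))) := by ring
    _ ≤ _ := by gcongr

theorem wint (h1 : S_VD) (h2 : S_GREEDY) (h3 : S_MEASV) : S_WINT := by
  intro g k s hg hk hgk hs
  obtain ⟨C1, hC1, hvd⟩ := h1 g k hgk
  set D : ℝ := ((2 : ℝ) ^ (g + 1)) ^ s * 2 ^ g * 2 ^ (g * s + g * g) * 2 ^ g * (1 + C1) ^ g with hD
  have hDp : 0 < D := by positivity
  refine ⟨g * D, by positivity, ?_⟩
  intro X T hX hT
  set M0 : ℝ := C1 * T * (X : ℝ) ^ (2 * (g : ℝ) - 2 - k) with hM0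
  have hM0n : 0 ≤ M0 := by positivity
  have hp : ∀ B : Fin g → ℝ, ENNReal.ofReal (WW g k X T B ^ s) ≤ ∑ ρ ∈ Finset.Icc 1 g,
      ENNReal.ofReal (((2 : ℝ) ^ (g + 1)) ^ s * 2 ^ g * ((X : ℝ) + 1) ^ (ρ * (s - ρ))) *
        RR k X g ρ M0 T B := by
    intro B
    apply point h2 g k s X T M0 hg hk hs hX hT B
    intro z hz hzi hzl
    exact hvd X T z B (by omega) (by linarith) hz hzi hzl
  calc ∫⁻ B : Fin g → ℝ, ENNReal.ofReal (WW g k X T B ^ s)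
      ≤ ∫⁻ B : Fin g → ℝ, ∑ ρ ∈ Finset.Icc 1 g,
          ENNReal.ofReal (((2 : ℝ) ^ (g + 1)) ^ s * 2 ^ g * ((X : ℝ) + 1) ^ (ρ * (s - ρ))) *
            RR k X g ρ M0 T B := lintegral_mono hp
    _ = ∑ ρ ∈ Finset.Icc 1 g, ENNReal.ofReal (((2 : ℝ) ^ (g + 1)) ^ s * 2 ^ g *
          ((X : ℝ) + 1) ^ (ρ * (s - ρ))) * ∫⁻ B : Fin g → ℝ, RR k X g ρ M0 T B := by
        rw [lintegral_finsetSum]
        · apply Finset.sum_congr rfl
          intro ρ _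
          rw [lintegral_const_mul _ (measurable_RR _ _ _ _ _ _)]
        · intro ρ _
          exact (measurable_RR _ _ _ _ _ _).const_mul _
    _ ≤ ∑ ρ ∈ Finset.Icc 1 g, ENNReal.ofReal (D * (T ^ g * (X : ℝ) ^ ((g : ℝ) * ((s : ℝ) - k + 1)))) := by
        apply Finset.sum_le_sum
        intro ρ hρ
        rw [Finset.mem_Icc] at hρ
        calc _ ≤ ENNReal.ofReal (((2 : ℝ) ^ (g + 1)) ^ s * 2 ^ g * ((X : ℝ) + 1) ^ (ρ * (s - ρ))) *
              ENNReal.ofReal (((X : ℝ) + 1) ^ (g * ρ) * ((2 * T) ^ ρ * (2 * M0) ^ (g - ρ) /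
                (X : ℝ) ^ (ρ * (k - 1)))) := by
              gcongr
              exact int_RR h3 k X g ρ M0 T hM0n (by linarith) (by omega)
          _ = ENNReal.ofReal (((2 : ℝ) ^ (g + 1)) ^ s * 2 ^ g * ((X : ℝ) + 1) ^ (ρ * (s - ρ)) *
              (((X : ℝ) + 1) ^ (g * ρ) * ((2 * T) ^ ρ * (2 * M0) ^ (g - ρ) /
                (X : ℝ) ^ (ρ * (k - 1))))) := by
              rw [← ENNReal.ofReal_mul (by positivity)]
          _ ≤ _ := by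
              apply ENNReal.ofReal_le_ofReal
              exact expo g k s ρ X C1 T hg hk hgk hs hρ.1 hρ.2 hX hT hC1
    _ = _ := by
        rw [Finset.sum_const, Nat.card_Icc, Nat.add_sub_cancel, nsmul_eq_mul,
          show (g : ℝ) * D * T ^ g * (X : ℝ) ^ ((g : ℝ) * ((s : ℝ) - k + 1)) =
            (g : ℝ) * (D * (T ^ g * (X : ℝ) ^ ((g : ℝ) * ((s : ℝ) - k + 1)))) by ring,
          ENNReal.ofReal_mul (Nat.cast_nonneg g), ENNReal.ofReal_natCast]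

end Pool.Agent.N255.KV
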